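import Mathlib

/-! Harmonic metrics on Higgs bundles over `ℂ` in a global holomorphic frame, and the Higgs
fields of the Hitchin section. -/

namespace Pool.Agent.R728.HM

open Matrix
open scoped ContDiff ComplexOrder

/-- The Wirtinger derivative `∂f/∂z` of a real-differentiable `f : ℂ → ℂ`. -/
noncomputable def dz (f : ℂ → ℂ) (z : ℂ) : ℂ :=
  (fderiv ℝ f z 1 - Complex.I * fderiv ℝ f z Complex.I) / 2

/-- The Wirtinger derivative `∂f/∂z̄`. -/
noncomputable def dzbar (f : ℂ → ℂ) (z : ℂ) : ℂ :=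
  (fderiv ℝ f z 1 + Complex.I * fderiv ℝ f z Complex.I) / 2

/-- Entrywise `∂/∂z` of a matrix-valued function. -/
noncomputable def mdz {n : ℕ} (M : ℂ → Matrix (Fin n) (Fin n) ℂ) (z : ℂ) :
    Matrix (Fin n) (Fin n) ℂ := Matrix.of fun i j => dz (fun w => M w i j) z

/-- Entrywise `∂/∂z̄` of a matrix-valued function. -/
noncomputable def mdzbar {n : ℕ} (M : ℂ → Matrix (Fin n) (Fin n) ℂ) (z : ℂ) :
    Matrix (Fin n) (Fin n) ℂ := Matrix.of fun i j => dzbar (fun w => M w i j) z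

/-- The matrix `Γ = H⁻¹ ∂_z H`: in a holomorphic frame in which the metric is
`h(u, v) = v* H u`, the Chern connection is `∇_h = d + Γ dz`. -/
noncomputable def chern {n : ℕ} (H : ℂ → Matrix (Fin n) (Fin n) ℂ) (z : ℂ) :
    Matrix (Fin n) (Fin n) ℂ := (H z)⁻¹ * mdz H z

/-- The `h`-adjoint `H⁻¹ A* H` of the endomorphism with matrix `A`:
if `θ = A dz` then `θ^{*h} = (hadj H A) dz̄`. -/
noncomputable def hadj {n : ℕ} (H A : ℂ → Matrix (Fin n) (Fin n) ℂ) (z : ℂ) :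
    Matrix (Fin n) (Fin n) ℂ := (H z)⁻¹ * (A z)ᴴ * H z

/-- `H` is (the matrix of) a harmonic metric on the Higgs bundle `(𝒪^n, A dz)` over `ℂ`:
a smooth positive definite Hermitian matrix function with
`∇_h∘∇_h + [θ, θ^{*h}] = 0`; here `∇_h∘∇_h = ∂̄(Γ dz) = -(∂Γ/∂z̄) dz ∧ dz̄` and
`[θ, θ^{*h}] = (A A^{*h} - A^{*h} A) dz ∧ dz̄`. -/
structure IsHarmonicMetric {n : ℕ} (A H : ℂ → Matrix (Fin n) (Fin n) ℂ) : Prop where
  smooth : ∀ i j, ContDiff ℝ ∞ fun z => H z i j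
  posDef : ∀ z, (H z).PosDef
  hitchin : ∀ z, -(mdzbar (chern H) z) + (A z * hadj H A z - hadj H A z * A z) = 0

/-- The matrix of the Higgs field `θ(q)` of the Hitchin section over `ℂ`, in the frame
`(dz)^{(n+1-2i)/2}`, `i = 1, …, n`: `1` on the subdiagonal, `q_k` on the `(k-1)`-th
superdiagonal for `2 ≤ k ≤ n`, and `0` elsewhere. (The `k`-differential is `q k (dz)^k`.) -/
noncomputable def hitchinMatrix (n : ℕ) (q : ℕ → ℂ → ℂ) (z : ℂ) : Matrix (Fin n) (Fin n) ℂ :=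
  Matrix.of fun i j =>
    if (i : ℕ) = (j : ℕ) + 1 then 1
    else if (i : ℕ) < (j : ℕ) then q ((j : ℕ) - (i : ℕ) + 1) z
    else 0

/-- The Higgs bundle `(𝕂_{ℂ,n}, θ(q))` admits a harmonic metric. -/
def HasHarmonicMetric (n : ℕ) (q : ℕ → ℂ → ℂ) : Prop :=
  ∃ H : ℂ → Matrix (Fin n) (Fin n) ℂ, IsHarmonicMetric (hitchinMatrix n q) H

end Pool.Agent.R728.HM
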