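import Mathlib

/-! Schur triangulation of complex matrices and the Henrici inequality. -/

namespace Pool.Agent.R728.HM

open scoped InnerProductSpace

/-- Schur triangulation, abstract form. -/
theorem exists_triangular_basis : ∀ (n : ℕ) (E : Type) [NormedAddCommGroup E]
    [InnerProductSpace ℂ E] [FiniteDimensional ℂ E] (_ : Module.finrank ℂ E = n)
    (T : E →ₗ[ℂ] E), ∃ b : OrthonormalBasis (Fin n) ℂ E,
      ∀ i j : Fin n, j < i → ⟪b i, T (b j)⟫_ℂ = 0
  | 0, E, _, _, _, hE, T => by
    refine ⟨(stdOrthonormalBasis ℂ E).reindex (finCongr hE), ?_⟩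
    intro i; exact i.elim0
  | n + 1, E, _, _, _, hE, T => by
    haveI : Nontrivial E := Module.nontrivial_of_finrank_pos (R := ℂ) (by omega)
    obtain ⟨μ, hμ⟩ := Module.End.exists_eigenvalue T
    obtain ⟨v0, hv0⟩ := hμ.exists_hasEigenvector
    set v : E := ((‖v0‖ : ℂ)⁻¹) • v0 with hv
    have hv0ne : ‖v0‖ ≠ 0 := norm_ne_zero_iff.mpr hv0.2
    have hTv : T v = μ • v := by
      rw [hv, map_smul, Module.End.mem_eigenspace_iff.mp hv0.1, smul_comm]
    have hvn : ‖v‖ = 1 := by
      rw [hv, norm_smul, norm_inv, Complex.norm_real, norm_norm, inv_mul_cancel₀ hv0ne]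
    set W : Submodule ℂ E := (ℂ ∙ v)ᗮ with hW
    have hvne : v ≠ 0 := by
      intro h; rw [h, norm_zero] at hvn; exact zero_ne_one hvn
    have hWrank : Module.finrank ℂ W = n := by
      haveI : Fact (Module.finrank ℂ E = n + 1) := ⟨hE⟩
      exact Submodule.finrank_orthogonal_span_singleton hvne
    obtain ⟨b', hb'⟩ := exists_triangular_basis n W hWrank
      ((W.orthogonalProjectionOnto).toLinearMap ∘ₗ T ∘ₗ W.subtype)
    -- assemble
    set f : Fin (n + 1) → E := Fin.cons v (fun i => (b' i : E)) with hf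
    have hvW : ∀ w : W, ⟪v, (w : E)⟫_ℂ = 0 := fun w =>
      (Submodule.mem_orthogonal_singleton_iff_inner_right).mp w.2
    have hon : Orthonormal ℂ f := by
      rw [orthonormal_iff_ite]
      intro i j
      refine Fin.cases ?_ (fun i => ?_) i <;> refine Fin.cases ?_ (fun j => ?_) j
      · simp [hf, inner_self_eq_norm_sq_to_K, hvn]
      · simp only [hf, Fin.cons_zero, Fin.cons_succ]
        rw [hvW, if_neg (Fin.succ_ne_zero j).symm]
      · simp only [hf, Fin.cons_zero, Fin.cons_succ]
        rw [← inner_conj_symm, hvW, map_zero, if_neg (Fin.succ_ne_zero i)]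
      · simp only [hf, Fin.cons_succ]
        rw [← Submodule.coe_inner, orthonormal_iff_ite.mp b'.orthonormal i j]
        simp [Fin.succ_inj]
    have hcard : Fintype.card (Fin (n + 1)) = Module.finrank ℂ E := by simp [hE]
    let b : OrthonormalBasis (Fin (n + 1)) ℂ E :=
      OrthonormalBasis.mk hon (by
        have hli := hon.linearIndependent
        rw [hli.span_eq_top_of_card_eq_finrank hcard])
    refine ⟨b, ?_⟩
    have hb : ∀ i, b i = f i := fun i => by simp [b]
    intro i j
    rw [hb, hb]
    refine Fin.cases ?_ (fun i => ?_) i <;> refine Fin.cases ?_ (fun j => ?_) j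
    · intro h; exact absurd h (lt_irrefl _)
    · intro h; exact absurd h (by simp)
    · intro _
      simp only [hf, Fin.cons_zero, Fin.cons_succ]
      rw [hTv, inner_smul_right, ← inner_conj_symm, hvW, map_zero, mul_zero]
    · intro h
      have h' : j < i := by simpa using h
      simp only [hf, Fin.cons_succ]
      have := hb' i j h'
      simp only [LinearMap.comp_apply] at this
      rw [← Submodule.inner_orthogonalProjectionOnto_eq_of_mem_left (b' i) (T (b' j))]
      exact this

open Matrix

theorem exists_schur {n : ℕ} (M : Matrix (Fin n) (Fin n) ℂ) :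
    ∃ U T : Matrix (Fin n) (Fin n) ℂ, Uᴴ * U = 1 ∧ U * Uᴴ = 1 ∧
      (∀ i j, j < i → T i j = 0) ∧ M = U * T * Uᴴ := by
  obtain ⟨b, hb⟩ := exists_triangular_basis n (EuclideanSpace ℂ (Fin n)) (by simp)
    (Matrix.toEuclideanLin M)
  set U : Matrix (Fin n) (Fin n) ℂ := Matrix.of fun i j => b j i with hU
  have hUU : Uᴴ * U = 1 := by
    ext i j
    have h1 := orthonormal_iff_ite.mp b.orthonormal i j
    rw [PiLp.inner_apply] at h1
    simp only [Matrix.mul_apply, Matrix.conjTranspose_apply, hU, Matrix.of_apply, Matrix.one_apply]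
    rw [← h1]
    apply Finset.sum_congr rfl
    intro k _
    simp [RCLike.inner_apply, mul_comm]
  have hUU' : U * Uᴴ = 1 := mul_eq_one_comm.mp hUU
  refine ⟨U, Uᴴ * M * U, hUU, hUU', ?_, ?_⟩
  · intro i j hij
    have h1 := hb i j hij
    rw [PiLp.inner_apply] at h1
    rw [← h1, Matrix.mul_assoc, Matrix.mul_apply]
    apply Finset.sum_congr rfl
    intro k _
    simp only [Matrix.conjTranspose_apply, hU, Matrix.of_apply, Matrix.mul_apply, RCLike.inner_apply]
    rw [mul_comm]
    congr 1
  · calc M = (U * Uᴴ) * M * (U * Uᴴ) := by rw [hUU']; simp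
      _ = U * (Uᴴ * M * U) * Uᴴ := by simp only [Matrix.mul_assoc]

end Pool.Agent.R728.HM
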