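import Mathlib
import Pool.Agent.R728.HM.Schur

/-! The Henrici inequality. -/

namespace Pool.Agent.R728.HM

open Matrix Polynomial

/-- squared Frobenius norm -/
noncomputable def fr {n : ℕ} (M : Matrix (Fin n) (Fin n) ℂ) : ℝ := ∑ i, ∑ j, ‖M i j‖ ^ 2

lemma fr_nonneg {n : ℕ} (M : Matrix (Fin n) (Fin n) ℂ) : 0 ≤ fr M :=
  Finset.sum_nonneg fun _ _ => Finset.sum_nonneg fun _ _ => sq_nonneg _

lemma trace_mul_conjTranspose {n : ℕ} (M N : Matrix (Fin n) (Fin n) ℂ) :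
    trace (M * Nᴴ) = ∑ i, ∑ j, M i j * star (N i j) := by
  simp [Matrix.trace, Matrix.mul_apply]

lemma trace_self {n : ℕ} (M : Matrix (Fin n) (Fin n) ℂ) :
    trace (M * Mᴴ) = (fr M : ℂ) := by
  rw [trace_mul_conjTranspose, fr]
  push_cast
  refine Finset.sum_congr rfl fun i _ => Finset.sum_congr rfl fun j _ => ?_
  rw [← Complex.ofReal_pow, ← Complex.normSq_eq_norm_sq, ← Complex.mul_conj]
  rfl

lemma cauchy_schwarz {n : ℕ} (M N : Matrix (Fin n) (Fin n) ℂ) :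
    ‖trace (M * Nᴴ)‖ ^ 2 ≤ fr M * fr N := by
  rw [trace_mul_conjTranspose]
  have h1 : ‖∑ i, ∑ j, M i j * star (N i j)‖ ≤
      ∑ p : Fin n × Fin n, ‖M p.1 p.2‖ * ‖N p.1 p.2‖ := by
    rw [← Finset.univ_product_univ, Finset.sum_product]
    refine (norm_sum_le _ _).trans (Finset.sum_le_sum fun i _ => ?_)
    refine (norm_sum_le _ _).trans (Finset.sum_le_sum fun j _ => ?_)
    rw [norm_mul, norm_star]
  have h2 := Finset.sum_mul_sq_le_sq_mul_sq (Finset.univ : Finset (Fin n × Fin n))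
    (fun p => ‖M p.1 p.2‖) (fun p => ‖N p.1 p.2‖)
  have h3 : ∀ (A : Matrix (Fin n) (Fin n) ℂ), ∑ p : Fin n × Fin n, ‖A p.1 p.2‖ ^ 2 = fr A := by
    intro A
    rw [← Finset.univ_product_univ, Finset.sum_product]; rfl
  rw [h3, h3] at h2
  exact (pow_le_pow_left₀ (norm_nonneg _) h1 2).trans h2

lemma fr_unitary {n : ℕ} {U : Matrix (Fin n) (Fin n) ℂ} (hU : Uᴴ * U = 1)
    (T : Matrix (Fin n) (Fin n) ℂ) : fr (U * T * Uᴴ) = fr T := by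
  have h : trace ((U * T * Uᴴ) * (U * T * Uᴴ)ᴴ) = trace (T * Tᴴ) := by
    simp only [Matrix.conjTranspose_mul, Matrix.conjTranspose_conjTranspose]
    have : U * T * Uᴴ * (U * (Tᴴ * Uᴴ)) = U * (T * (Uᴴ * U) * Tᴴ * Uᴴ) := by
      simp only [Matrix.mul_assoc]
    rw [this, hU, Matrix.mul_one, Matrix.trace_mul_comm]
    have : T * Tᴴ * Uᴴ * U = T * Tᴴ * (Uᴴ * U) := by simp only [Matrix.mul_assoc]
    rw [this, hU, Matrix.mul_one]
  rw [trace_self, trace_self] at h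
  exact_mod_cast h

lemma tri_identity {n : ℕ} (T : Matrix (Fin n) (Fin n) ℂ) (hT : ∀ i j, j < i → T i j = 0) :
    fr T - ∑ i, ‖T i i‖ ^ 2 ≤
      ∑ k : Fin n, ((k : ℕ) : ℝ) * (∑ i, ‖T i k‖ ^ 2 - ∑ j, ‖T k j‖ ^ 2) := by
  have h1 : ∑ k : Fin n, ((k : ℕ) : ℝ) * (∑ i, ‖T i k‖ ^ 2 - ∑ j, ‖T k j‖ ^ 2) =
      ∑ i : Fin n, ∑ j : Fin n, (((j : ℕ) : ℝ) - ((i : ℕ) : ℝ)) * ‖T i j‖ ^ 2 := by
    simp only [mul_sub, sub_mul, Finset.sum_sub_distrib, Finset.mul_sum]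
    rw [Finset.sum_comm]
  have h2 : fr T - ∑ i, ‖T i i‖ ^ 2 =
      ∑ i : Fin n, ∑ j : Fin n, (if i = j then 0 else ‖T i j‖ ^ 2) := by
    rw [fr, ← Finset.sum_sub_distrib]
    refine Finset.sum_congr rfl fun i _ => ?_
    have : ∀ j, (if i = j then 0 else ‖T i j‖ ^ 2) = ‖T i j‖ ^ 2 - if i = j then ‖T i j‖ ^ 2 else 0 := by
      intro j; split_ifs <;> simp
    simp [this]
  rw [h1, h2]
  refine Finset.sum_le_sum fun i _ => Finset.sum_le_sum fun j _ => ?_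
  rcases lt_trichotomy i j with h | h | h
  · rw [if_neg h.ne]
    have h3 : ((i : ℕ) : ℝ) + 1 ≤ ((j : ℕ) : ℝ) := by exact_mod_cast h
    nlinarith [sq_nonneg ‖T i j‖]
  · simp [h]
  · rw [if_neg h.ne', hT i j h]; simp

lemma comm_diag {n : ℕ} (T : Matrix (Fin n) (Fin n) ℂ) (k : Fin n) :
    (T * Tᴴ - Tᴴ * T) k k = ((∑ j, ‖T k j‖ ^ 2 - ∑ i, ‖T i k‖ ^ 2 : ℝ) : ℂ) := by
  simp only [Matrix.sub_apply, Matrix.mul_apply, Matrix.conjTranspose_apply]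
  push_cast
  congr 1
  · refine Finset.sum_congr rfl fun j _ => ?_
    rw [← Complex.ofReal_pow, ← Complex.normSq_eq_norm_sq, ← Complex.mul_conj]; rfl
  · refine Finset.sum_congr rfl fun j _ => ?_
    rw [← Complex.ofReal_pow, ← Complex.normSq_eq_norm_sq, ← Complex.mul_conj, mul_comm]; rfl

lemma tri_henrici {n : ℕ} (T : Matrix (Fin n) (Fin n) ℂ) (hT : ∀ i j, j < i → T i j = 0) :
    (fr T - ∑ i, ‖T i i‖ ^ 2) ^ 2 ≤ (n : ℝ) ^ 3 * fr (T * Tᴴ - Tᴴ * T) := by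
  set C := T * Tᴴ - Tᴴ * T with hC
  have h0 : 0 ≤ fr T - ∑ i, ‖T i i‖ ^ 2 := by
    rw [fr, ← Finset.sum_sub_distrib]
    refine Finset.sum_nonneg fun i _ => ?_
    have := Finset.single_le_sum (f := fun j => ‖T i j‖ ^ 2) (fun j _ => sq_nonneg _)
      (Finset.mem_univ i)
    linarith
  have h1 : fr T - ∑ i, ‖T i i‖ ^ 2 ≤ ∑ k : Fin n, (n : ℝ) * ‖C k k‖ := by
    refine (tri_identity T hT).trans (Finset.sum_le_sum fun k _ => ?_)
    rw [hC, comm_diag T k, Complex.norm_real, Real.norm_eq_abs]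
    have hk : ((k : ℕ) : ℝ) ≤ n := by exact_mod_cast k.2.le
    have hk0 : (0 : ℝ) ≤ ((k : ℕ) : ℝ) := Nat.cast_nonneg _
    calc ((k : ℕ) : ℝ) * (∑ i, ‖T i k‖ ^ 2 - ∑ j, ‖T k j‖ ^ 2)
        ≤ ((k : ℕ) : ℝ) * |∑ j, ‖T k j‖ ^ 2 - ∑ i, ‖T i k‖ ^ 2| := by
          apply mul_le_mul_of_nonneg_left _ hk0
          rw [abs_sub_comm]; exact le_abs_self _
      _ ≤ (n : ℝ) * |∑ j, ‖T k j‖ ^ 2 - ∑ i, ‖T i k‖ ^ 2| :=
          mul_le_mul_of_nonneg_right hk (abs_nonneg _)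
  have h2 : (∑ k : Fin n, (n : ℝ) * ‖C k k‖) ^ 2 ≤ (n : ℝ) ^ 3 * ∑ k : Fin n, ‖C k k‖ ^ 2 := by
    rw [← Finset.mul_sum, mul_pow]
    have := sq_sum_le_card_mul_sum_sq (s := (Finset.univ : Finset (Fin n))) (f := fun k => ‖C k k‖)
    simp only [Finset.card_univ, Fintype.card_fin] at this
    calc (n : ℝ) ^ 2 * (∑ k : Fin n, ‖C k k‖) ^ 2
        ≤ (n : ℝ) ^ 2 * ((n : ℝ) * ∑ k : Fin n, ‖C k k‖ ^ 2) :=
          mul_le_mul_of_nonneg_left this (by positivity)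
      _ = (n : ℝ) ^ 3 * ∑ k : Fin n, ‖C k k‖ ^ 2 := by ring
  have h3 : ∑ k : Fin n, ‖C k k‖ ^ 2 ≤ fr C := by
    rw [fr]
    refine Finset.sum_le_sum fun i _ => ?_
    exact Finset.single_le_sum (f := fun j => ‖C i j‖ ^ 2) (fun j _ => sq_nonneg _)
      (Finset.mem_univ i)
  calc (fr T - ∑ i, ‖T i i‖ ^ 2) ^ 2 ≤ (∑ k : Fin n, (n : ℝ) * ‖C k k‖) ^ 2 :=
        pow_le_pow_left₀ h0 h1 2
    _ ≤ (n : ℝ) ^ 3 * ∑ k : Fin n, ‖C k k‖ ^ 2 := h2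
    _ ≤ (n : ℝ) ^ 3 * fr C := mul_le_mul_of_nonneg_left h3 (by positivity)

/-- sum of the squared moduli of the eigenvalues -/
noncomputable def eigsq {n : ℕ} (M : Matrix (Fin n) (Fin n) ℂ) : ℝ :=
  (M.charpoly.roots.map fun z => ‖z‖ ^ 2).sum

lemma eigsq_nonneg {n : ℕ} (M : Matrix (Fin n) (Fin n) ℂ) : 0 ≤ eigsq M := by
  apply Multiset.sum_nonneg
  intro x hx
  obtain ⟨z, _, rfl⟩ := Multiset.mem_map.mp hx
  positivity

lemma eigsq_tri {n : ℕ} (T : Matrix (Fin n) (Fin n) ℂ) (hT : ∀ i j, j < i → T i j = 0) :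
    eigsq T = ∑ i, ‖T i i‖ ^ 2 := by
  have h1 : T.charpoly = ∏ i : Fin n, (X - C (T i i)) :=
    charpoly_of_isUpperTriangular T (fun i j h => hT i j h)
  have h2 : T.charpoly = (((Finset.univ : Finset (Fin n)).val.map fun i => T i i).map
      fun a => X - C a).prod := by
    rw [h1, Multiset.map_map]; rfl
  rw [eigsq, h2, roots_multiset_prod_X_sub_C, Multiset.map_map]
  rfl

lemma eigsq_conj {n : ℕ} {P Q : Matrix (Fin n) (Fin n) ℂ} (h : P * Q = 1)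
    (M : Matrix (Fin n) (Fin n) ℂ) : eigsq (P * M * Q) = eigsq M := by
  have h' : Q * P = 1 := mul_eq_one_comm.mp h
  have h2 : (P * M * Q).charpoly = M.charpoly := by
    rw [Matrix.charpoly_mul_comm, ← Matrix.mul_assoc, h', Matrix.one_mul]
  rw [eigsq, eigsq, h2]

theorem henrici {n : ℕ} (M : Matrix (Fin n) (Fin n) ℂ) :
    (fr M - eigsq M) ^ 2 ≤ (n : ℝ) ^ 3 * fr (M * Mᴴ - Mᴴ * M) := by
  obtain ⟨U, T, hU, hU', hT, rfl⟩ := exists_schur M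
  rw [fr_unitary hU, eigsq_conj hU', eigsq_tri T hT]
  have : U * T * Uᴴ * (U * T * Uᴴ)ᴴ - (U * T * Uᴴ)ᴴ * (U * T * Uᴴ) =
      U * (T * Tᴴ - Tᴴ * T) * Uᴴ := by
    simp only [Matrix.conjTranspose_mul, Matrix.conjTranspose_conjTranspose]
    have e1 : U * T * Uᴴ * (U * (Tᴴ * Uᴴ)) = U * (T * (Uᴴ * U) * Tᴴ) * Uᴴ := by
      simp only [Matrix.mul_assoc]
    have e2 : U * (Tᴴ * Uᴴ) * (U * T * Uᴴ) = U * (Tᴴ * (Uᴴ * U) * T) * Uᴴ := by
      simp only [Matrix.mul_assoc]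
    rw [e1, e2, hU, Matrix.mul_one, Matrix.mul_one]
    simp only [Matrix.mul_sub, Matrix.sub_mul]
  rw [this, fr_unitary hU]
  exact tri_henrici T hT

/-- if the Frobenius norm is at most the eigenvalue sum, the matrix is diagonalisable -/
theorem diag_of_fr_le {n : ℕ} (M : Matrix (Fin n) (Fin n) ℂ) (h : fr M ≤ eigsq M) :
    ∃ (U : Matrix (Fin n) (Fin n) ℂ) (d : Fin n → ℂ), Uᴴ * U = 1 ∧ U * Uᴴ = 1 ∧
      M = U * Matrix.diagonal d * Uᴴ := by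
  obtain ⟨U, T, hU, hU', hT, rfl⟩ := exists_schur M
  rw [fr_unitary hU, eigsq_conj hU', eigsq_tri T hT] at h
  refine ⟨U, fun i => T i i, hU, hU', ?_⟩
  congr 2
  have h1 : ∀ i ∈ (Finset.univ : Finset (Fin n)), ∑ j, ‖T i j‖ ^ 2 = ‖T i i‖ ^ 2 := by
    have hle : ∀ i ∈ (Finset.univ : Finset (Fin n)), ‖T i i‖ ^ 2 ≤ ∑ j, ‖T i j‖ ^ 2 :=
      fun i _ => Finset.single_le_sum (f := fun j => ‖T i j‖ ^ 2) (fun j _ => sq_nonneg _)
        (Finset.mem_univ i)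
    have := (Finset.sum_eq_sum_iff_of_le hle).mp (le_antisymm (Finset.sum_le_sum hle) h)
    intro i hi
    exact (this i hi).symm
  ext i j
  by_cases hij : i = j
  · subst hij; simp
  · rw [Matrix.diagonal_apply_ne _ hij]
    have h2 := h1 i (Finset.mem_univ i)
    rw [← Finset.add_sum_erase _ _ (Finset.mem_univ i)] at h2
    have h3 : ∑ j ∈ Finset.univ.erase i, ‖T i j‖ ^ 2 = 0 := by linarith
    rw [Finset.sum_eq_zero_iff_of_nonneg (fun _ _ => sq_nonneg _)] at h3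
    have h4 := h3 j (Finset.mem_erase.mpr ⟨fun h => hij h.symm, Finset.mem_univ j⟩)
    simpa using h4

end Pool.Agent.R728.HM
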