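import Mathlib

/-! A Keller–Osserman type maximum principle on `ℂ`. -/

namespace Pool.Agent.R728.HM

open Filter Topology

/-- Necessary second order condition at a local maximum on the line. -/
lemma second_deriv_nonpos {g g1 : ℝ → ℝ} {d : ℝ} (hg : ∀ t, HasDerivAt g (g1 t) t)
    (hg1 : HasDerivAt g1 d 0) (hmax : IsLocalMax g 0) : g1 0 = 0 ∧ d ≤ 0 := by
  have h0 : g1 0 = 0 := by
    have := hmax.hasDerivAt_eq_zero (hg 0)
    exact this
  refine ⟨h0, ?_⟩
  by_contra hd
  push Not at hd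
  have hder : deriv g = g1 := funext fun t => (hg t).deriv
  have hdd : deriv (deriv g) 0 = d := by rw [hder]; exact hg1.deriv
  have hmin : IsLocalMin g 0 :=
    isLocalMin_of_deriv_deriv_pos (by rw [hdd]; exact hd) (by rw [hder]; exact h0)
      (hg 0).continuousAt
  have hconst : g =ᶠ[𝓝 0] fun _ => g 0 := by
    filter_upwards [hmax, hmin] with t h1 h2
    exact le_antisymm h1 h2
  have h1 : deriv g =ᶠ[𝓝 0] deriv (fun _ : ℝ => g 0) := hconst.deriv
  have h2 : deriv (deriv g) 0 = deriv (deriv (fun _ : ℝ => g 0)) 0 := h1.deriv_eq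
  have h3 : deriv (deriv (fun _ : ℝ => g 0)) 0 = 0 := by simp
  rw [hdd, h3] at h2
  linarith

/-- directional second derivative -/
noncomputable def dd (u : ℂ → ℝ) (v : ℂ) (z : ℂ) : ℝ :=
  fderiv ℝ (fun w => fderiv ℝ u w v) z v

/-- the one dimensional computation -/
lemma line_ineq {a a1 : ℝ → ℝ} {a2 r0 r1 k : ℝ} (ha : ∀ t, HasDerivAt a (a1 t) t)
    (ha1 : HasDerivAt a1 a2 0)
    (hmax : IsLocalMax (fun t => a t * (r0 + r1 * t + k * t ^ 2) ^ 2) 0) :
    a1 0 * r0 ^ 2 + 2 * a 0 * r0 * r1 = 0 ∧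
      a2 * r0 ^ 2 + 4 * a1 0 * r0 * r1 + a 0 * (2 * r1 ^ 2 + 4 * r0 * k) ≤ 0 := by
  have hr : ∀ t : ℝ, HasDerivAt (fun t : ℝ => r0 + r1 * t + k * t ^ 2) (r1 + 2 * k * t) t := by
    intro t
    have h1 := ((hasDerivAt_id t).const_mul r1).const_add r0
    have h2 := ((hasDerivAt_id t).pow 2).const_mul k
    refine (h1.add h2).congr_deriv ?_
    simp; ring
  have hr1 : ∀ t : ℝ, HasDerivAt (fun t : ℝ => r1 + 2 * k * t) (2 * k) t := by
    intro t
    have h1 := ((hasDerivAt_id t).const_mul (2 * k)).const_add r1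
    simpa using h1
  have h := second_deriv_nonpos (g := fun t => a t * (r0 + r1 * t + k * t ^ 2) ^ 2)
    (g1 := fun t => a1 t * (r0 + r1 * t + k * t ^ 2) ^ 2 +
      a t * (2 * (r0 + r1 * t + k * t ^ 2) * (r1 + 2 * k * t)))
    (d := a2 * r0 ^ 2 + 4 * a1 0 * r0 * r1 + a 0 * (2 * r1 ^ 2 + 4 * r0 * k)) ?_ ?_ hmax
  · obtain ⟨h1, h2⟩ := h
    refine ⟨?_, h2⟩
    simp at h1
    linarith
  · intro t
    refine ((ha t).mul ((hr t).pow 2)).congr_deriv ?_
    simp
  · have e1 := ha1.mul ((hr 0).pow 2)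
    have e2 := (ha 0).mul (((hr 0).const_mul 2).mul (hr1 0))
    refine (e1.add e2).congr_deriv ?_
    simp
    ring

lemma hasDerivAt_line (u : ℂ → ℝ) (hu : Differentiable ℝ u) (z v : ℂ) (t : ℝ) :
    HasDerivAt (fun t : ℝ => u (z + t • v)) (fderiv ℝ u (z + t • v) v) t := by
  have h1 : HasDerivAt (fun t : ℝ => z + t • v) v t := by
    have := ((hasDerivAt_id t).smul_const v).const_add z
    simpa using this
  exact (hu (z + t • v)).hasFDerivAt.comp_hasDerivAt t h1

lemma hasDerivAt_line2 (u : ℂ → ℝ) (hu : ContDiff ℝ 2 u) (z v : ℂ) :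
    HasDerivAt (fun t : ℝ => fderiv ℝ u (z + t • v) v) (dd u v z) 0 := by
  have h1 : HasDerivAt (fun t : ℝ => z + t • v) v 0 := by
    have := ((hasDerivAt_id (0:ℝ)).smul_const v).const_add z
    simpa using this
  have hd : Differentiable ℝ (fun w => fderiv ℝ u w v) := by
    have h2 : ContDiff ℝ 1 (fun w => fderiv ℝ u w v) :=
      (hu.fderiv_right (m := 1) (by norm_num)).clm_apply contDiff_const
    exact h2.differentiable (by norm_num)
  have h3 := (hd (z + (0:ℝ) • v)).hasFDerivAt.comp_hasDerivAt (0:ℝ) h1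
  simp only [zero_smul, add_zero] at h3
  exact h3

theorem KO (u : ℂ → ℝ) (hu : ContDiff ℝ 2 u) (c L : ℝ) (hc : 0 < c) (hL : 0 ≤ L)
    (h : ∀ z, ∃ s b : ℝ, 0 ≤ b ∧ 4 * (s + b) ≤ dd u 1 z + dd u Complex.I z ∧
      (fderiv ℝ u z 1) ^ 2 + (fderiv ℝ u z Complex.I) ^ 2 ≤ 4 * u z * b ∧
      c * (u z - L) ^ 2 ≤ s) : ∀ z, u z ≤ L := by
  intro z0
  by_contra hz0
  push Not at hz0
  set u0 := u z0 with hu0
  have hu0pos : 0 < u0 := lt_of_le_of_lt hL hz0
  set η : ℝ := (1 - L / u0) ^ 2 with hη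
  have hLu : L / u0 < 1 := (div_lt_one hu0pos).mpr hz0
  have hηpos : 0 < η := pow_pos (by linarith) 2
  -- radius, `K = 1 / R ^ 2`
  set K : ℝ := c * η * u0 / 8 with hK
  have hKpos : 0 < K := by positivity
  set ρ : ℂ → ℝ := fun z => 1 - K * Complex.normSq (z - z0) with hρ
  set ψ : ℂ → ℝ := fun z => u z * ρ z ^ 2 with hψ
  have hucont : Continuous u := hu.continuous
  have hρcont : Continuous ρ :=
    continuous_const.sub (continuous_const.mul (Complex.continuous_normSq.comp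
      (continuous_id.sub continuous_const)))
  have hψcont : Continuous ψ := hucont.mul (hρcont.pow 2)
  -- compact disc
  set D : Set ℂ := {z | 0 ≤ ρ z} with hD
  have hDcomp : IsCompact D := by
    apply Metric.isCompact_of_isClosed_isBounded
    · exact isClosed_le continuous_const hρcont
    · rw [Metric.isBounded_iff_subset_closedBall z0]
      refine ⟨1 + 1 / K, ?_⟩
      intro z hz
      simp only [Metric.mem_closedBall, dist_eq_norm]
      have h1 : K * Complex.normSq (z - z0) ≤ 1 := by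
        have : 0 ≤ 1 - K * Complex.normSq (z - z0) := hz
        linarith
      rw [Complex.normSq_eq_norm_sq] at h1
      have h2 : ‖z - z0‖ ^ 2 ≤ 1 / K := by
        rw [le_div_iff₀ hKpos]; linarith
      nlinarith [norm_nonneg (z - z0), sq_nonneg (‖z - z0‖ - 1)]
  have hρ0 : ρ z0 = 1 := by simp [hρ]
  have hz0D : z0 ∈ D := by
    change 0 ≤ ρ z0
    rw [hρ0]; norm_num
  obtain ⟨zs, hzsD, hzsmax⟩ := hDcomp.exists_isMaxOn ⟨z0, hz0D⟩ hψcont.continuousOn
  have hψ0 : ψ z0 = u0 := by simp [hψ, hρ0, hu0]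
  have hψzs : u0 ≤ ψ zs := by
    rw [← hψ0]; exact hzsmax hz0D
  have hρzs : 0 < ρ zs := by
    rcases lt_or_eq_of_le (show 0 ≤ ρ zs from hzsD) with h1 | h1
    · exact h1
    · exfalso
      have : ψ zs = 0 := by simp [hψ, ← h1]
      linarith
  have hnhds : D ∈ 𝓝 zs := by
    have : IsOpen {z | 0 < ρ z} := isOpen_lt continuous_const hρcont
    exact Filter.mem_of_superset (this.mem_nhds hρzs) (fun z hz => show 0 ≤ ρ z from le_of_lt hz)
  have hlocmax : IsLocalMax ψ zs := hzsmax.isLocalMax hnhds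
  -- the two lines
  set p : ℝ := (zs - z0).re with hp
  set q : ℝ := (zs - z0).im with hq
  set r0 : ℝ := ρ zs with hr0
  have hr0eq : r0 = 1 - K * (p ^ 2 + q ^ 2) := by
    simp only [hr0, hρ, Complex.normSq_apply, hp, hq]; ring
  have hudiff : Differentiable ℝ u := hu.differentiable (by norm_num)
  have key : ∀ (v : ℂ) (r1 : ℝ), (∀ t : ℝ, ρ (zs + t • v) = r0 + r1 * t + (-K) * t ^ 2) →
      fderiv ℝ u zs v * r0 ^ 2 + 2 * u zs * r0 * r1 = 0 ∧
      dd u v zs * r0 ^ 2 + 4 * fderiv ℝ u zs v * r0 * r1 +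
        u zs * (2 * r1 ^ 2 + 4 * r0 * (-K)) ≤ 0 := by
    intro v r1 hline
    have h1 := line_ineq (a := fun t : ℝ => u (zs + t • v))
      (a1 := fun t : ℝ => fderiv ℝ u (zs + t • v) v) (a2 := dd u v zs) (r0 := r0) (r1 := r1)
      (k := -K) (fun t => hasDerivAt_line u hudiff zs v t) (hasDerivAt_line2 u hu zs v) ?_
    · simpa using h1
    · have h2 : IsLocalMax (ψ ∘ fun t : ℝ => zs + t • v) 0 := by
        apply IsLocalMax.comp_continuous
        · simpa using hlocmax
        · exact (continuous_const.add (continuous_id.smul continuous_const)).continuousAt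
      refine h2.congr (Eventually.of_forall fun t => ?_)
      simp only [Function.comp, hψ]
      rw [hline t]
  have k1 := key 1 (-2 * K * p) (by
    intro t
    rw [hr0eq]
    simp only [hρ, Complex.normSq_apply, hp, hq]
    simp
    ring)
  have k2 := key Complex.I (-2 * K * q) (by
    intro t
    rw [hr0eq]
    simp only [hρ, Complex.normSq_apply, hp, hq]
    simp
    ring)
  obtain ⟨s, b, hb, hlap, hgrad, hs⟩ := h zs
  obtain ⟨k11, k12⟩ := k1
  obtain ⟨k21, k22⟩ := k2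
  set U := u zs with hU
  set ux := fderiv ℝ u zs 1 with hux
  set uy := fderiv ℝ u zs Complex.I with huy
  set d1 := dd u 1 zs with hd1
  set d2 := dd u Complex.I zs with hd2
  have hUψ : u0 ≤ U * r0 ^ 2 := hψzs
  have hr0le : r0 ≤ 1 := by
    rw [hr0eq]
    have : 0 ≤ K * (p ^ 2 + q ^ 2) := by positivity
    linarith
  have hr0sq : r0 ^ 2 ≤ 1 := by nlinarith
  have hUpos : 0 < U := by
    by_contra hneg
    push Not at hneg
    have : U * r0 ^ 2 ≤ 0 := mul_nonpos_of_nonpos_of_nonneg hneg (sq_nonneg _)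
    linarith
  have hUu0 : u0 ≤ U := by nlinarith
  have e1 : ux * r0 = -2 * U * (-2 * K * p) := by
    have : r0 * (ux * r0 - -2 * U * (-2 * K * p)) = 0 := by linear_combination k11
    rcases mul_eq_zero.mp this with h | h
    · exact absurd h hρzs.ne'
    · linarith
  have e2 : uy * r0 = -2 * U * (-2 * K * q) := by
    have : r0 * (uy * r0 - -2 * U * (-2 * K * q)) = 0 := by linear_combination k21
    rcases mul_eq_zero.mp this with h | h
    · exact absurd h hρzs.ne'
    · linarith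
  set G : ℝ := K ^ 2 * (p ^ 2 + q ^ 2) with hG
  have f1 : (d1 + d2) * r0 ^ 2 ≤ 24 * U * G + 8 * U * K * r0 := by
    have a1 : 4 * ux * r0 * (-2 * K * p) = -8 * U * (-2 * K * p) ^ 2 := by
      linear_combination 4 * (-2 * K * p) * e1
    have a2 : 4 * uy * r0 * (-2 * K * q) = -8 * U * (-2 * K * q) ^ 2 := by
      linear_combination 4 * (-2 * K * q) * e2
    rw [a1] at k12
    rw [a2] at k22
    rw [hG]
    linear_combination k12 + k22
  have f2 : 4 * U * G ≤ b * r0 ^ 2 := by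
    have a1 : (ux ^ 2 + uy ^ 2) * r0 ^ 2 = 16 * U ^ 2 * G := by
      have : (ux ^ 2 + uy ^ 2) * r0 ^ 2 = (ux * r0) ^ 2 + (uy * r0) ^ 2 := by ring
      rw [this, e1, e2, hG]; ring
    have a2 : (ux ^ 2 + uy ^ 2) * r0 ^ 2 ≤ 4 * U * b * r0 ^ 2 :=
      mul_le_mul_of_nonneg_right hgrad (sq_nonneg _)
    rw [a1] at a2
    have a3 : (4 * U) * (4 * U * G) ≤ (4 * U) * (b * r0 ^ 2) := by linear_combination a2
    exact le_of_mul_le_mul_left a3 (by positivity)
  have f3 : 4 * (s + b) * r0 ^ 2 ≤ (d1 + d2) * r0 ^ 2 :=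
    mul_le_mul_of_nonneg_right hlap (sq_nonneg _)
  have f4 : s * r0 ^ 2 ≤ 2 * U * K := by
    have a1 : K * (p ^ 2 + q ^ 2) + r0 = 1 := by rw [hr0eq]; ring
    have a2 : 8 * U * G + 8 * U * K * r0 = 8 * U * K := by
      rw [hG]; linear_combination 8 * U * K * a1
    linear_combination (1/4 : ℝ) * f3 + (1/4 : ℝ) * f1 + f2 + (1/4 : ℝ) * a2
  have f5 : c * (U - L) ^ 2 * r0 ^ 2 ≤ 2 * U * K :=
    (mul_le_mul_of_nonneg_right hs (sq_nonneg _)).trans f4
  have f6 : U * (1 - L / u0) ≤ U - L := by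
    have : L ≤ U * (L / u0) := by
      have h1 : L = u0 * (L / u0) := by field_simp
      calc L = u0 * (L / u0) := h1
        _ ≤ U * (L / u0) := mul_le_mul_of_nonneg_right hUu0 (div_nonneg hL hu0pos.le)
    linarith
  have f7 : η * U ^ 2 ≤ (U - L) ^ 2 := by
    have h1 : 0 ≤ U * (1 - L / u0) := mul_nonneg hUpos.le (by linarith)
    have := pow_le_pow_left₀ h1 f6 2
    rw [hη]; linear_combination this
  have f8 : c * (η * U ^ 2) * r0 ^ 2 ≤ 2 * U * K := by
    refine le_trans ?_ f5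
    apply mul_le_mul_of_nonneg_right _ (sq_nonneg _)
    exact mul_le_mul_of_nonneg_left f7 hc.le
  have f9 : c * η * (U * r0 ^ 2) ≤ 2 * K := by
    have a3 : U * (c * η * (U * r0 ^ 2)) ≤ U * (2 * K) := by linear_combination f8
    exact le_of_mul_le_mul_left a3 hUpos
  have f10 : c * η * u0 ≤ 2 * K := by
    refine le_trans ?_ f9
    exact mul_le_mul_of_nonneg_left hUψ (by positivity)
  have f11 : 0 < c * η * u0 := by positivity
  rw [hK] at f10
  linarith

end Pool.Agent.R728.HM
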