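import Mathlib
import Pool.Agent.R728.HM.Defs
import Pool.Agent.R728.HM.KO
import Pool.Agent.R728.HM.Henrici

/-! Wirtinger calculus for matrix valued functions. -/

namespace Pool.Agent.R728.HM

open Matrix
open scoped ContDiff ComplexOrder

section scalar

variable {f g : ℂ → ℂ} {z : ℂ}

lemma dz_mul (hf : DifferentiableAt ℝ f z) (hg : DifferentiableAt ℝ g z) :
    dz (fun w => f w * g w) z = dz f z * g z + f z * dz g z := by
  simp only [dz]
  rw [show (fun w => f w * g w) = f * g from rfl, fderiv_mul hf hg]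
  simp only [FunLike.coe_add, Pi.add_apply, FunLike.coe_smul, Pi.smul_apply, smul_eq_mul]
  ring

lemma dzbar_mul (hf : DifferentiableAt ℝ f z) (hg : DifferentiableAt ℝ g z) :
    dzbar (fun w => f w * g w) z = dzbar f z * g z + f z * dzbar g z := by
  simp only [dzbar]
  rw [show (fun w => f w * g w) = f * g from rfl, fderiv_mul hf hg]
  simp only [FunLike.coe_add, Pi.add_apply, FunLike.coe_smul, Pi.smul_apply, smul_eq_mul]
  ring

lemma dz_sum {ι : Type*} (s : Finset ι) (F : ι → ℂ → ℂ)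
    (hF : ∀ i ∈ s, DifferentiableAt ℝ (F i) z) :
    dz (fun w => ∑ i ∈ s, F i w) z = ∑ i ∈ s, dz (F i) z := by
  simp only [dz]
  rw [fderiv_fun_sum hF]
  simp only [FunLike.coe_sum, Finset.sum_apply, Finset.mul_sum, ← Finset.sum_sub_distrib,
    Finset.sum_div]

lemma dzbar_sum {ι : Type*} (s : Finset ι) (F : ι → ℂ → ℂ)
    (hF : ∀ i ∈ s, DifferentiableAt ℝ (F i) z) :
    dzbar (fun w => ∑ i ∈ s, F i w) z = ∑ i ∈ s, dzbar (F i) z := by
  simp only [dzbar]
  rw [fderiv_fun_sum hF]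
  simp only [FunLike.coe_sum, Finset.sum_apply, Finset.mul_sum, ← Finset.sum_add_distrib,
    Finset.sum_div]

lemma dz_star (hf : DifferentiableAt ℝ f z) :
    dz (fun w => star (f w)) z = star (dzbar f z) := by
  simp only [dz, dzbar]
  have h : HasFDerivAt (fun w => star (f w)) ((starL' ℝ : ℂ ≃L[ℝ] ℂ).toContinuousLinearMap.comp (fderiv ℝ f z)) z :=
    (starL' ℝ : ℂ ≃L[ℝ] ℂ).toContinuousLinearMap.hasFDerivAt.comp z hf.hasFDerivAt
  rw [h.fderiv]
  simp [star_add, star_mul', star_div₀]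
  ring

lemma dz_contDiff (hf : ContDiff ℝ ∞ f) : ContDiff ℝ ∞ (dz f) := by
  have h := hf.fderiv_right (m := ∞) (by norm_num)
  exact ((h.clm_apply contDiff_const).sub (contDiff_const.mul (h.clm_apply contDiff_const))).div_const _

lemma dzbar_contDiff (hf : ContDiff ℝ ∞ f) : ContDiff ℝ ∞ (dzbar f) := by
  have h := hf.fderiv_right (m := ∞) (by norm_num)
  exact ((h.clm_apply contDiff_const).add (contDiff_const.mul (h.clm_apply contDiff_const))).div_const _

end scalar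

variable {n : ℕ}

/-- smooth entries -/
def Sm (M : ℂ → Matrix (Fin n) (Fin n) ℂ) : Prop := ∀ i j, ContDiff ℝ ∞ fun z => M z i j

lemma Sm.const (A : Matrix (Fin n) (Fin n) ℂ) : Sm (fun _ => A) := fun _ _ => contDiff_const

lemma Sm.mul {M N : ℂ → Matrix (Fin n) (Fin n) ℂ} (hM : Sm M) (hN : Sm N) :
    Sm (fun w => M w * N w) := by
  intro i j
  simp only [Matrix.mul_apply]
  exact ContDiff.sum fun k _ => (hM i k).mul (hN k j)

lemma Sm.sub {M N : ℂ → Matrix (Fin n) (Fin n) ℂ} (hM : Sm M) (hN : Sm N) :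
    Sm (fun w => M w - N w) := by
  intro i j
  simp only [Matrix.sub_apply]
  exact (hM i j).sub (hN i j)

lemma Sm.mdz {M : ℂ → Matrix (Fin n) (Fin n) ℂ} (hM : Sm M) : Sm (mdz M) :=
  fun i j => dz_contDiff (hM i j)

lemma Sm.mdzbar {M : ℂ → Matrix (Fin n) (Fin n) ℂ} (hM : Sm M) : Sm (mdzbar M) :=
  fun i j => dzbar_contDiff (hM i j)

lemma Sm.det {M : ℂ → Matrix (Fin n) (Fin n) ℂ} (hM : Sm M) :
    ContDiff ℝ ∞ (fun w => (M w).det) := by
  simp only [Matrix.det_apply]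
  refine ContDiff.sum fun σ _ => ?_
  refine ContDiff.const_smul _ ?_
  exact contDiff_prod fun i _ => hM _ _

lemma Sm.inv {M : ℂ → Matrix (Fin n) (Fin n) ℂ} (hM : Sm M) (hdet : ∀ w, (M w).det ≠ 0) :
    Sm (fun w => (M w)⁻¹) := by
  intro i j
  simp only [Matrix.inv_def, Matrix.smul_apply, Ring.inverse_eq_inv', smul_eq_mul]
  refine (hM.det.inv hdet).mul ?_
  simp only [Matrix.adjugate_apply]
  apply Sm.det
  intro a b
  simp only [Matrix.updateRow_apply]
  split_ifs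
  · exact contDiff_const
  · exact hM a b

lemma Sm.trace {M : ℂ → Matrix (Fin n) (Fin n) ℂ} (hM : Sm M) :
    ContDiff ℝ ∞ (fun w => (M w).trace) := by
  simp only [Matrix.trace]
  exact ContDiff.sum fun i _ => hM i i

lemma Sm.diff {M : ℂ → Matrix (Fin n) (Fin n) ℂ} (hM : Sm M) (i j : Fin n) (z : ℂ) :
    DifferentiableAt ℝ (fun w => M w i j) z :=
  ((hM i j).differentiable (by norm_num)).differentiableAt

lemma mdz_mul {M N : ℂ → Matrix (Fin n) (Fin n) ℂ} (hM : Sm M) (hN : Sm N) (z : ℂ) :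
    mdz (fun w => M w * N w) z = mdz M z * N z + M z * mdz N z := by
  ext i j
  simp only [mdz, Matrix.of_apply, Matrix.add_apply, Matrix.mul_apply]
  rw [dz_sum Finset.univ (fun k w => M w i k * N w k j)
    (fun k _ => (hM.diff i k z).mul (hN.diff k j z)), ← Finset.sum_add_distrib]
  exact Finset.sum_congr rfl fun k _ => dz_mul (hM.diff i k z) (hN.diff k j z)

lemma mdzbar_mul {M N : ℂ → Matrix (Fin n) (Fin n) ℂ} (hM : Sm M) (hN : Sm N) (z : ℂ) :
    mdzbar (fun w => M w * N w) z = mdzbar M z * N z + M z * mdzbar N z := by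
  ext i j
  simp only [mdzbar, Matrix.of_apply, Matrix.add_apply, Matrix.mul_apply]
  rw [dzbar_sum Finset.univ (fun k w => M w i k * N w k j)
    (fun k _ => (hM.diff i k z).mul (hN.diff k j z)), ← Finset.sum_add_distrib]
  exact Finset.sum_congr rfl fun k _ => dzbar_mul (hM.diff i k z) (hN.diff k j z)

lemma dz_const (c : ℂ) (z : ℂ) : dz (fun _ => c) z = 0 := by simp [dz]
lemma dzbar_const (c : ℂ) (z : ℂ) : dzbar (fun _ => c) z = 0 := by simp [dzbar]

lemma mdz_const (A : Matrix (Fin n) (Fin n) ℂ) (z : ℂ) : mdz (fun _ => A) z = 0 := by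
  ext i j; simp [mdz, dz_const]

lemma mdzbar_const (A : Matrix (Fin n) (Fin n) ℂ) (z : ℂ) : mdzbar (fun _ => A) z = 0 := by
  ext i j; simp [mdzbar, dzbar_const]

lemma dz_trace {M : ℂ → Matrix (Fin n) (Fin n) ℂ} (hM : Sm M) (z : ℂ) :
    dz (fun w => (M w).trace) z = (mdz M z).trace := by
  simp only [Matrix.trace, Matrix.diag_apply]
  rw [dz_sum _ _ (fun k _ => hM.diff k k z)]
  rfl

lemma dzbar_trace {M : ℂ → Matrix (Fin n) (Fin n) ℂ} (hM : Sm M) (z : ℂ) :
    dzbar (fun w => (M w).trace) z = (mdzbar M z).trace := by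
  simp only [Matrix.trace, Matrix.diag_apply]
  rw [dzbar_sum _ _ (fun k _ => hM.diff k k z)]
  rfl

lemma mdz_conjTranspose {M : ℂ → Matrix (Fin n) (Fin n) ℂ} (hM : Sm M) (z : ℂ) :
    mdz (fun w => (M w)ᴴ) z = (mdzbar M z)ᴴ := by
  ext i j
  simp only [mdz, mdzbar, Matrix.of_apply, Matrix.conjTranspose_apply]
  exact dz_star (hM.diff j i z)

lemma mdz_sub {M N : ℂ → Matrix (Fin n) (Fin n) ℂ} (hM : Sm M) (hN : Sm N) (z : ℂ) :
    mdz (fun w => M w - N w) z = mdz M z - mdz N z := by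
  ext i j
  simp only [mdz, Matrix.of_apply, Matrix.sub_apply, dz]
  rw [fderiv_fun_sub (hM.diff i j z) (hN.diff i j z)]
  simp only [FunLike.coe_sub, Pi.sub_apply]
  ring

lemma mdzbar_sub {M N : ℂ → Matrix (Fin n) (Fin n) ℂ} (hM : Sm M) (hN : Sm N) (z : ℂ) :
    mdzbar (fun w => M w - N w) z = mdzbar M z - mdzbar N z := by
  ext i j
  simp only [mdzbar, Matrix.of_apply, Matrix.sub_apply, dzbar]
  rw [fderiv_fun_sub (hM.diff i j z) (hN.diff i j z)]
  simp only [FunLike.coe_sub, Pi.sub_apply]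
  ring

/-! ### real valued functions -/

lemma fderiv_ofReal {u : ℂ → ℝ} {z : ℂ} (hu : DifferentiableAt ℝ u z) (v : ℂ) :
    fderiv ℝ (fun w => (u w : ℂ)) z v = ((fderiv ℝ u z v : ℝ) : ℂ) := by
  have h : HasFDerivAt (fun w => (u w : ℂ)) (Complex.ofRealCLM.comp (fderiv ℝ u z)) z :=
    Complex.ofRealCLM.hasFDerivAt.comp z hu.hasFDerivAt
  rw [h.fderiv]; rfl

lemma dz_ofReal {u : ℂ → ℝ} {z : ℂ} (hu : DifferentiableAt ℝ u z) :
    dz (fun w => (u w : ℂ)) z =
      (((fderiv ℝ u z 1 : ℝ) : ℂ) - Complex.I * ((fderiv ℝ u z Complex.I : ℝ) : ℂ)) / 2 := by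
  rw [dz, fderiv_ofReal hu, fderiv_ofReal hu]

lemma normsq_dz {u : ℂ → ℝ} {z : ℂ} (hu : DifferentiableAt ℝ u z) :
    4 * ‖dz (fun w => (u w : ℂ)) z‖ ^ 2 =
      (fderiv ℝ u z 1) ^ 2 + (fderiv ℝ u z Complex.I) ^ 2 := by
  rw [dz_ofReal hu, ← Complex.normSq_eq_norm_sq, Complex.normSq_apply]
  simp
  ring

lemma laplacian_dz {u : ℂ → ℝ} (hu : ContDiff ℝ ∞ u) (z : ℂ) :
    4 * (dzbar (dz (fun w => (u w : ℂ))) z).re = dd u 1 z + dd u Complex.I z := by
  have hd : Differentiable ℝ u := hu.differentiable (by norm_num)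
  have hv : ∀ v : ℂ, ContDiff ℝ ∞ (fun w => fderiv ℝ u w v) := fun v =>
    (hu.fderiv_right (m := ∞) (by norm_num)).clm_apply contDiff_const
  have hvd : ∀ v w : ℂ, DifferentiableAt ℝ (fun w => fderiv ℝ u w v) w := fun v w =>
    ((hv v).differentiable (by norm_num)).differentiableAt
  have h1 : dz (fun w => (u w : ℂ)) = fun w =>
      (((fderiv ℝ u w 1 : ℝ) : ℂ) - Complex.I * ((fderiv ℝ u w Complex.I : ℝ) : ℂ)) / 2 :=
    funext fun w => dz_ofReal (hd w)
  have h2 : ∀ e : ℂ, fderiv ℝ (fun w =>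
      (((fderiv ℝ u w 1 : ℝ) : ℂ) - Complex.I * ((fderiv ℝ u w Complex.I : ℝ) : ℂ)) / 2) z e =
      (((fderiv ℝ (fun w => fderiv ℝ u w 1) z e : ℝ) : ℂ) -
        Complex.I * ((fderiv ℝ (fun w => fderiv ℝ u w Complex.I) z e : ℝ) : ℂ)) / 2 := by
    intro e
    have a1 : HasFDerivAt (fun w => ((fderiv ℝ u w 1 : ℝ) : ℂ))
        (Complex.ofRealCLM.comp (fderiv ℝ (fun w => fderiv ℝ u w 1) z)) z :=
      Complex.ofRealCLM.hasFDerivAt.comp z (hvd 1 z).hasFDerivAt
    have a2 : HasFDerivAt (fun w => ((fderiv ℝ u w Complex.I : ℝ) : ℂ))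
        (Complex.ofRealCLM.comp (fderiv ℝ (fun w => fderiv ℝ u w Complex.I) z)) z :=
      Complex.ofRealCLM.hasFDerivAt.comp z (hvd Complex.I z).hasFDerivAt
    have a3 := (a1.sub (a2.const_mul Complex.I)).mul_const (2⁻¹ : ℂ)
    have a4 : HasFDerivAt (fun w =>
      (((fderiv ℝ u w 1 : ℝ) : ℂ) - Complex.I * ((fderiv ℝ u w Complex.I : ℝ) : ℂ)) / 2) _ z :=
      a3
    rw [a4.fderiv]
    simp [smul_eq_mul]
    ring
  rw [h1, dzbar, h2, h2]
  simp [dd]
  ring

end Pool.Agent.R728.HM
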