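import Mathlib
import Pool.Agent.R728.HM.Wirt

/-! The Simpson type estimate for a constant Higgs field on `ℂ`. -/

namespace Pool.Agent.R728.HM

open Matrix
open scoped ContDiff ComplexOrder MatrixOrder

variable {n : ℕ}

lemma exists_factor {K : Matrix (Fin n) (Fin n) ℂ} (hK : K.PosDef) :
    ∃ S S' : Matrix (Fin n) (Fin n) ℂ, S * S' = 1 ∧ K = Sᴴ * S := by
  have h0 : 0 ≤ K := Matrix.nonneg_iff_posSemidef.mpr hK.posSemidef
  set R := CFC.sqrt K with hR
  have hRR : R * R = K := CFC.sqrt_mul_sqrt_self K h0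
  have hRsa : Rᴴ = R := by
    have : IsSelfAdjoint R := IsSelfAdjoint.of_nonneg (CFC.sqrt_nonneg K)
    exact this
  have hdet : K.det ≠ 0 := hK.det_pos.ne'
  have hRdet : R.det ≠ 0 := by
    intro h
    apply hdet
    rw [← hRR, Matrix.det_mul, h, zero_mul]
  refine ⟨R, R⁻¹, ?_, ?_⟩
  · exact Matrix.mul_nonsing_inv R (isUnit_iff_ne_zero.mpr hRdet)
  · rw [hRsa, hRR]

/-- pointwise data -/
theorem pointwise (A : Matrix (Fin n) (Fin n) ℂ) (H : ℂ → Matrix (Fin n) (Fin n) ℂ)
    (hH : IsHarmonicMetric (fun _ => A) H) (z : ℂ) (S S' : Matrix (Fin n) (Fin n) ℂ)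
    (hS : S * S' = 1) (hHS : H z = Sᴴ * S) :
    trace (A * hadj H (fun _ => A) z) = (fr (S * A * S') : ℂ) ∧
    ∃ B : Matrix (Fin n) (Fin n) ℂ,
      dz (fun w => trace (A * hadj H (fun _ => A) w)) z = trace (B * (S * A * S')ᴴ) ∧
      dzbar (dz (fun w => trace (A * hadj H (fun _ => A) w))) z =
        (fr ((S * A * S') * (S * A * S')ᴴ - (S * A * S')ᴴ * (S * A * S')) : ℂ) + (fr B : ℂ) := by
  have hSm : Sm H := hH.smooth
  have hdet : ∀ w, (H w).det ≠ 0 := fun w => (hH.posDef w).det_pos.ne'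
  have hherm : ∀ w, (H w)ᴴ = H w := fun w => (hH.posDef w).isHermitian
  set G : ℂ → Matrix (Fin n) (Fin n) ℂ := fun w => (H w)⁻¹ with hG
  have hGm : Sm G := hSm.inv hdet
  have hGH : ∀ w, G w * H w = 1 := fun w =>
    Matrix.nonsing_inv_mul _ (isUnit_iff_ne_zero.mpr (hdet w))
  have hHG : ∀ w, H w * G w = 1 := fun w =>
    Matrix.mul_nonsing_inv _ (isUnit_iff_ne_zero.mpr (hdet w))
  set As : ℂ → Matrix (Fin n) (Fin n) ℂ := hadj H (fun _ => A) with hAs
  have hAs' : ∀ w, As w = G w * Aᴴ * H w := fun w => rfl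
  have hAsm : Sm As := (hGm.mul (Sm.const Aᴴ)).mul hSm
  set Γ : ℂ → Matrix (Fin n) (Fin n) ℂ := chern H with hΓ
  have hΓ' : ∀ w, Γ w = G w * mdz H w := fun w => rfl
  have hΓm : Sm Γ := hGm.mul hSm.mdz
  set Δ : ℂ → Matrix (Fin n) (Fin n) ℂ := fun w => G w * mdzbar H w with hΔ
  -- derivatives of G
  have hdG : ∀ w, mdz G w = -(G w * mdz H w * G w) := by
    intro w
    have h1 := mdz_mul hGm hSm w
    have h2 : (fun w => G w * H w) = fun _ => 1 := funext hGH
    rw [h2, mdz_const] at h1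
    have h3 : mdz G w * H w * G w = -(G w * mdz H w) * G w := by
      congr 1
      exact eq_neg_of_add_eq_zero_left h1.symm
    rw [Matrix.mul_assoc, hHG, Matrix.mul_one] at h3
    rw [h3, Matrix.neg_mul]
  have hdG' : ∀ w, mdzbar G w = -(G w * mdzbar H w * G w) := by
    intro w
    have h1 := mdzbar_mul hGm hSm w
    have h2 : (fun w => G w * H w) = fun _ => 1 := funext hGH
    rw [h2, mdzbar_const] at h1
    have h3 : mdzbar G w * H w * G w = -(G w * mdzbar H w) * G w := by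
      congr 1
      exact eq_neg_of_add_eq_zero_left h1.symm
    rw [Matrix.mul_assoc, hHG, Matrix.mul_one] at h3
    rw [h3, Matrix.neg_mul]
  have hdAs : ∀ w, mdz As w = As w * Γ w - Γ w * As w := by
    intro w
    have h1 : mdz As w = mdz (fun w => G w * Aᴴ) w * H w + G w * Aᴴ * mdz H w :=
      mdz_mul (hGm.mul (Sm.const Aᴴ)) hSm w
    have h2 : mdz (fun w => G w * Aᴴ) w = mdz G w * Aᴴ := by
      rw [mdz_mul hGm (Sm.const Aᴴ), mdz_const, Matrix.mul_zero, add_zero]
    rw [h1, h2, hdG, hAs', hΓ']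
    have h3 : G w * Aᴴ * H w * (G w * mdz H w) = G w * Aᴴ * mdz H w := by
      calc G w * Aᴴ * H w * (G w * mdz H w) = G w * Aᴴ * (H w * G w) * mdz H w := by
            simp only [Matrix.mul_assoc]
        _ = _ := by rw [hHG, Matrix.mul_one]
    rw [h3]
    simp only [Matrix.neg_mul, Matrix.mul_assoc]
    abel
  have hdAs' : ∀ w, mdzbar As w = As w * Δ w - Δ w * As w := by
    intro w
    have h1 : mdzbar As w = mdzbar (fun w => G w * Aᴴ) w * H w + G w * Aᴴ * mdzbar H w :=
      mdzbar_mul (hGm.mul (Sm.const Aᴴ)) hSm w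
    have h2 : mdzbar (fun w => G w * Aᴴ) w = mdzbar G w * Aᴴ := by
      rw [mdzbar_mul hGm (Sm.const Aᴴ), mdzbar_const, Matrix.mul_zero, add_zero]
    rw [h1, h2, hdG', hAs']
    have h3 : G w * Aᴴ * H w * (G w * mdzbar H w) = G w * Aᴴ * mdzbar H w := by
      calc G w * Aᴴ * H w * (G w * mdzbar H w) = G w * Aᴴ * (H w * G w) * mdzbar H w := by
            simp only [Matrix.mul_assoc]
        _ = _ := by rw [hHG, Matrix.mul_one]
    simp only [hΔ]
    rw [h3]
    simp only [Matrix.neg_mul, Matrix.mul_assoc]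
    abel
  -- first derivative of U
  have hU1 : dz (fun w => trace (A * As w)) = fun w => trace ((Γ w * A - A * Γ w) * As w) := by
    funext w
    rw [dz_trace ((Sm.const A).mul hAsm), mdz_mul (Sm.const A) hAsm, mdz_const, Matrix.zero_mul,
      zero_add, hdAs, Matrix.mul_sub, Matrix.trace_sub, Matrix.sub_mul, Matrix.trace_sub]
    congr 1
    · rw [← Matrix.mul_assoc, Matrix.trace_mul_comm, ← Matrix.mul_assoc]
    · rw [← Matrix.mul_assoc]
  -- second derivative
  set Cz : Matrix (Fin n) (Fin n) ℂ := A * As z - As z * A with hCz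
  have hit : mdzbar Γ z = Cz := by
    have := hH.hitchin z
    rw [neg_add_eq_zero] at this
    exact this
  have hU2 : dzbar (dz (fun w => trace (A * As w))) z =
      trace (Cz * Cz) + trace ((Γ z * A - A * Γ z) * (As z * Δ z - Δ z * As z)) := by
    rw [hU1, dzbar_trace (((hΓm.mul (Sm.const A)).sub ((Sm.const A).mul hΓm)).mul hAsm),
      mdzbar_mul ((hΓm.mul (Sm.const A)).sub ((Sm.const A).mul hΓm)) hAsm,
      mdzbar_sub (hΓm.mul (Sm.const A)) ((Sm.const A).mul hΓm),
      mdzbar_mul hΓm (Sm.const A), mdzbar_mul (Sm.const A) hΓm, mdzbar_const, hit, hdAs',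
      Matrix.trace_add]
    congr 1
    simp only [Matrix.mul_zero, add_zero, Matrix.zero_mul, zero_add]
    rw [Matrix.sub_mul, Matrix.trace_sub]
    have e1 : trace (A * Cz * As z) = trace (Cz * (As z * A)) := by
      rw [Matrix.mul_assoc, Matrix.trace_mul_comm, Matrix.mul_assoc]
    rw [e1, Matrix.mul_assoc, ← Matrix.trace_sub, ← Matrix.mul_sub]
  -- conjugation by S
  have hS' : S' * S = 1 := mul_eq_one_comm.mp hS
  have hSh : S'ᴴ * Sᴴ = 1 := by rw [← Matrix.conjTranspose_mul, hS, Matrix.conjTranspose_one]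
  have hGz : G z = S' * S'ᴴ := by
    have h1 : (S' * S'ᴴ) * H z = 1 := by
      rw [hHS]
      calc S' * S'ᴴ * (Sᴴ * S) = S' * (S'ᴴ * Sᴴ) * S := by simp only [Matrix.mul_assoc]
        _ = 1 := by rw [hSh, Matrix.mul_one, hS']
    calc G z = 1 * G z := by rw [Matrix.one_mul]
      _ = S' * S'ᴴ * (H z * G z) := by rw [← h1, Matrix.mul_assoc]
      _ = S' * S'ᴴ := by rw [hHG, Matrix.mul_one]
  have tmul : ∀ X Y : Matrix (Fin n) (Fin n) ℂ, (S * X * S') * (S * Y * S') = S * (X * Y) * S' := by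
    intro X Y
    calc (S * X * S') * (S * Y * S') = S * X * (S' * S) * Y * S' := by
          simp only [Matrix.mul_assoc]
      _ = _ := by rw [hS', Matrix.mul_one]; simp only [Matrix.mul_assoc]
  have ttr : ∀ X : Matrix (Fin n) (Fin n) ℂ, trace (S * X * S') = trace X := by
    intro X
    rw [Matrix.trace_mul_comm, ← Matrix.mul_assoc, hS', Matrix.one_mul]
  have tAs : S * As z * S' = (S * A * S')ᴴ := by
    rw [hAs', hGz, hHS]
    simp only [Matrix.conjTranspose_mul]
    calc S * (S' * S'ᴴ * Aᴴ * (Sᴴ * S)) * S' = (S * S') * S'ᴴ * Aᴴ * Sᴴ * (S * S') := by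
          simp only [Matrix.mul_assoc]
      _ = _ := by rw [hS, Matrix.one_mul, Matrix.mul_one]; simp only [Matrix.mul_assoc]
  have hdHh : (mdz H z)ᴴ = mdzbar H z := by
    have h1 := mdz_conjTranspose hSm z
    have h2 : (fun w => (H w)ᴴ) = H := funext hherm
    rw [h2] at h1
    rw [h1, Matrix.conjTranspose_conjTranspose]
  have tΔ : S * Δ z * S' = (S * Γ z * S')ᴴ := by
    have l1 : S * Δ z * S' = S'ᴴ * mdzbar H z * S' := by
      simp only [hΔ]
      rw [hGz]
      calc S * (S' * S'ᴴ * mdzbar H z) * S' = (S * S') * S'ᴴ * mdzbar H z * S' := by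
            simp only [Matrix.mul_assoc]
        _ = S'ᴴ * mdzbar H z * S' := by rw [hS, Matrix.one_mul]
    have l2 : (S * Γ z * S')ᴴ = S'ᴴ * mdzbar H z * S' := by
      rw [hΓ', hGz]
      simp only [Matrix.conjTranspose_mul, Matrix.conjTranspose_conjTranspose, hdHh]
      calc S'ᴴ * (mdzbar H z * (S' * S'ᴴ) * Sᴴ) = S'ᴴ * mdzbar H z * S' * (S'ᴴ * Sᴴ) := by
            simp only [Matrix.mul_assoc]
        _ = _ := by rw [hSh, Matrix.mul_one]
    rw [l1, l2]
  set At : Matrix (Fin n) (Fin n) ℂ := S * A * S' with hAt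
  set Gt : Matrix (Fin n) (Fin n) ℂ := S * Γ z * S' with hGt
  have ctr : ∀ X Y : Matrix (Fin n) (Fin n) ℂ, trace (X * Y) = trace ((S * X * S') * (S * Y * S')) := by
    intro X Y; rw [tmul, ttr]
  refine ⟨?_, Gt * At - At * Gt, ?_, ?_⟩
  · rw [ctr, tAs, trace_self]
  · rw [hU1]
    simp only
    rw [ctr, tAs]
    congr 2
    rw [hGt, hAt, tmul, tmul, Matrix.mul_sub, Matrix.sub_mul]
  · rw [hU2]
    congr 1
    · rw [ctr]
      have e1 : S * Cz * S' = At * Atᴴ - Atᴴ * At := by
        rw [hCz, Matrix.mul_sub, Matrix.sub_mul, ← tmul, ← tmul, tAs]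
      rw [e1, ← trace_self]
      congr 2
      simp only [Matrix.conjTranspose_sub, Matrix.conjTranspose_mul,
        Matrix.conjTranspose_conjTranspose]
    · rw [ctr, ← trace_self]
      congr 2
      · rw [hGt, hAt, tmul, tmul, Matrix.mul_sub, Matrix.sub_mul]
      · rw [Matrix.mul_sub, Matrix.sub_mul, ← tmul (As z) (Δ z), ← tmul (Δ z) (As z), tAs, tΔ]
        simp only [Matrix.conjTranspose_sub, Matrix.conjTranspose_mul]

/-- Simpson's estimate on the whole plane: the Higgs field has the smallest possible norm. -/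
theorem fr_le_eigsq (hn : 0 < n) (A : Matrix (Fin n) (Fin n) ℂ)
    (H : ℂ → Matrix (Fin n) (Fin n) ℂ)
    (hH : IsHarmonicMetric (fun _ => A) H) (z : ℂ) (S S' : Matrix (Fin n) (Fin n) ℂ)
    (hS : S * S' = 1) (hHS : H z = Sᴴ * S) : fr (S * A * S') ≤ eigsq A := by
  have hSm : Sm H := hH.smooth
  have hdet : ∀ w, (H w).det ≠ 0 := fun w => (hH.posDef w).det_pos.ne'
  set U : ℂ → ℂ := fun w => trace (A * hadj H (fun _ => A) w) with hU
  have hUs : ContDiff ℝ ∞ U :=
    Sm.trace ((Sm.const A).mul (((hSm.inv hdet).mul (Sm.const Aᴴ)).mul hSm))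
  set u : ℂ → ℝ := fun w => (U w).re with hu
  have hus : ContDiff ℝ ∞ u := Complex.reCLM.contDiff.comp hUs
  have hUu : U = fun w => (u w : ℂ) := by
    funext w
    obtain ⟨T, T', hT, hHT⟩ := exists_factor (hH.posDef w)
    have h1 := (pointwise A H hH w T T' hT hHT).1
    have h2 : U w = (fr (T * A * T') : ℂ) := h1
    simp only [hu, h2, Complex.ofReal_re]
  have hmain : ∀ w, u w ≤ eigsq A := by
    apply KO u (contDiff_infty.mp hus 2) (1 / (n : ℝ) ^ 3) (eigsq A) (by positivity)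
      (eigsq_nonneg A)
    intro w
    obtain ⟨T, T', hT, hHT⟩ := exists_factor (hH.posDef w)
    obtain ⟨h1, B, h2, h3⟩ := pointwise A H hH w T T' hT hHT
    have hT' : T' * T = 1 := mul_eq_one_comm.mp hT
    have h1' : u w = fr (T * A * T') := by
      simp only [hu, hU, h1, Complex.ofReal_re]
    change dz U w = _ at h2
    change dzbar (dz U) w = _ at h3
    refine ⟨fr ((T * A * T') * (T * A * T')ᴴ - (T * A * T')ᴴ * (T * A * T')), fr B,
      fr_nonneg B, ?_, ?_, ?_⟩
    · rw [← laplacian_dz hus w, ← hUu, h3]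
      simp
    · have hd : Differentiable ℝ u := hus.differentiable (by norm_num)
      rw [← normsq_dz (hd w), ← hUu, h2, h1']
      have := cauchy_schwarz B (T * A * T')
      nlinarith
    · rw [h1']
      have h4 := henrici (T * A * T')
      rw [eigsq_conj hT] at h4
      have hn' : (0 : ℝ) < (n : ℝ) ^ 3 := by positivity
      rw [one_div, inv_mul_le_iff₀ hn']
      exact h4
  have h1 := (pointwise A H hH z S S' hS hHS).1
  have h1' : u z = fr (S * A * S') := by
    simp only [hu, hU, h1, Complex.ofReal_re]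
  rw [← h1']
  exact hmain z

/-- A constant Higgs field on the trivial bundle over `ℂ` that admits a harmonic metric is
diagonalisable. -/
theorem diagonalisable_of_harmonic (hn : 0 < n) (A : Matrix (Fin n) (Fin n) ℂ)
    (H : ℂ → Matrix (Fin n) (Fin n) ℂ) (hH : IsHarmonicMetric (fun _ => A) H) :
    ∃ (P Q : Matrix (Fin n) (Fin n) ℂ) (d : Fin n → ℂ), P * Q = 1 ∧
      A = P * Matrix.diagonal d * Q := by
  obtain ⟨S, S', hS, hHS⟩ := exists_factor (hH.posDef 0)
  have hS' : S' * S = 1 := mul_eq_one_comm.mp hS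
  have h := fr_le_eigsq hn A H hH 0 S S' hS hHS
  rw [← eigsq_conj hS A] at h
  obtain ⟨V, d, hV, hV', hd⟩ := diag_of_fr_le _ h
  refine ⟨S' * V, Vᴴ * S, d, ?_, ?_⟩
  · calc S' * V * (Vᴴ * S) = S' * (V * Vᴴ) * S := by simp only [Matrix.mul_assoc]
      _ = 1 := by rw [hV', Matrix.mul_one, hS']
  · calc A = (S' * S) * A * (S' * S) := by rw [hS', Matrix.one_mul, Matrix.mul_one]
      _ = S' * (S * A * S') * S := by simp only [Matrix.mul_assoc]
      _ = _ := by rw [hd]; simp only [Matrix.mul_assoc]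

end Pool.Agent.R728.HM
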