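import Mathlib
import Pool.Agent.R728.HM.Main

/-! Constant tuples in the Hitchin section over `ℂ`. -/

namespace Pool.Agent.R728.HM

open Matrix Polynomial
open scoped ContDiff ComplexOrder

variable {n : ℕ}

/-- diagonalisable implies harmonic -/
theorem harmonic_of_diagonalisable (A P Q : Matrix (Fin n) (Fin n) ℂ) (d : Fin n → ℂ)
    (hPQ : P * Q = 1) (hA : A = P * Matrix.diagonal d * Q) :
    IsHarmonicMetric (fun _ => A) (fun _ => Qᴴ * Q) := by
  have hQP : Q * P = 1 := mul_eq_one_comm.mp hPQ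
  have hinv : (Qᴴ * Q)⁻¹ = P * Pᴴ := by
    apply Matrix.inv_eq_left_inv
    calc P * Pᴴ * (Qᴴ * Q) = P * (Pᴴ * Qᴴ) * Q := by simp only [Matrix.mul_assoc]
      _ = 1 := by rw [← Matrix.conjTranspose_mul, hQP, Matrix.conjTranspose_one, Matrix.mul_one, hPQ]
  refine ⟨fun i j => contDiff_const, fun _ => ?_, fun z => ?_⟩
  · apply Matrix.PosDef.conjTranspose_mul_self
    intro v w h
    have h' : P *ᵥ (Q *ᵥ v) = P *ᵥ (Q *ᵥ w) := by
      change Q *ᵥ v = Q *ᵥ w at h
      rw [h]
    simpa [Matrix.mulVec_mulVec, hPQ] using h'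
  · have h1 : chern (fun _ : ℂ => Qᴴ * Q) = fun _ => 0 := by
      funext w
      rw [chern, mdz_const, Matrix.mul_zero]
    rw [h1, mdzbar_const, neg_zero, zero_add]
    have h2 : hadj (fun _ : ℂ => Qᴴ * Q) (fun _ => A) z = P * Matrix.diagonal (star d) * Q := by
      rw [hadj, hinv, hA]
      simp only [Matrix.conjTranspose_mul, Matrix.diagonal_conjTranspose]
      calc P * Pᴴ * (Qᴴ * (Matrix.diagonal (star d) * Pᴴ)) * (Qᴴ * Q)
          = P * (Pᴴ * Qᴴ) * Matrix.diagonal (star d) * (Pᴴ * Qᴴ) * Q := by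
            simp only [Matrix.mul_assoc]
        _ = _ := by
          rw [← Matrix.conjTranspose_mul, hQP, Matrix.conjTranspose_one, Matrix.mul_one,
            Matrix.mul_one]
    rw [h2, hA]
    have h3 : ∀ a b : Fin n → ℂ, P * Matrix.diagonal a * Q * (P * Matrix.diagonal b * Q) =
        P * Matrix.diagonal (fun i => a i * b i) * Q := by
      intro a b
      calc P * Matrix.diagonal a * Q * (P * Matrix.diagonal b * Q)
          = P * Matrix.diagonal a * (Q * P) * Matrix.diagonal b * Q := by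
            simp only [Matrix.mul_assoc]
        _ = P * (Matrix.diagonal a * Matrix.diagonal b) * Q := by
            rw [hQP, Matrix.mul_one]; simp only [Matrix.mul_assoc]
        _ = _ := by rw [Matrix.diagonal_mul_diagonal]
    rw [h3, h3, sub_eq_zero]
    congr 2
    ext i
    simp [mul_comm]

/-- distinct eigenvalues imply diagonalisable -/
theorem diagonalisable_of_nodup (A : Matrix (Fin n) (Fin n) ℂ) (h : A.charpoly.roots.Nodup) :
    ∃ (P Q : Matrix (Fin n) (Fin n) ℂ) (d : Fin n → ℂ), P * Q = 1 ∧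
      A = P * Matrix.diagonal d * Q := by
  classical
  have hcard : A.charpoly.roots.toFinset.card = n := by
    rw [Multiset.toFinset_card_of_nodup h]
    have h1 := IsAlgClosed.card_roots_eq_natDegree (p := A.charpoly)
    rw [h1, Matrix.charpoly_natDegree_eq_dim, Fintype.card_fin]
  set e := (A.charpoly.roots.toFinset.equivFin.trans (finCongr hcard)).symm with he
  set d : Fin n → ℂ := fun i => (e i : ℂ) with hd
  have hdinj : Function.Injective d := fun i j hij => e.injective (Subtype.ext hij)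
  have hroot : ∀ i, A.charpoly.IsRoot (d i) := by
    intro i
    have := (e i).2
    rw [Multiset.mem_toFinset] at this
    exact isRoot_of_mem_roots this
  have hvec : ∀ i, ∃ v : Fin n → ℂ, v ≠ 0 ∧ A *ᵥ v = d i • v := by
    intro i
    have h1 := hroot i
    rw [Polynomial.IsRoot.def, Matrix.eval_charpoly] at h1
    obtain ⟨v, hv, hv'⟩ := Matrix.exists_mulVec_eq_zero_iff.mpr h1
    refine ⟨v, hv, ?_⟩
    rw [Matrix.sub_mulVec, sub_eq_zero] at hv'
    rw [← hv']
    rw [Matrix.scalar_apply]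
    ext j
    simp [Matrix.mulVec_diagonal]
  choose v hv hAv using hvec
  have hli : LinearIndependent ℂ v := by
    apply Module.End.eigenvectors_linearIndependent' (Matrix.toLin' A) d hdinj v
    intro i
    refine ⟨?_, hv i⟩
    rw [Module.End.mem_eigenspace_iff, Matrix.toLin'_apply, hAv]
  set P : Matrix (Fin n) (Fin n) ℂ := Matrix.of fun i j => v j i with hP
  have hunit : IsUnit P := by
    rw [← Matrix.linearIndependent_cols_iff_isUnit]
    exact hli
  have hdet : IsUnit P.det := (Matrix.isUnit_iff_isUnit_det P).mp hunit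
  have hPP : P * P⁻¹ = 1 := Matrix.mul_nonsing_inv P hdet
  refine ⟨P, P⁻¹, d, hPP, ?_⟩
  have hAP : A * P = P * Matrix.diagonal d := by
    ext i j
    have h1 := congrFun (hAv j) i
    simp only [Matrix.mulVec, dotProduct, Pi.smul_apply, smul_eq_mul] at h1
    rw [Matrix.mul_diagonal, Matrix.mul_apply]
    simp only [hP, Matrix.of_apply]
    rw [h1, mul_comm]
  rw [← hAP, Matrix.mul_assoc, hPP, Matrix.mul_one]

/-- back substitution: a vector in the kernel of `A(q) - λ` with vanishing last coordinate is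
zero -/
lemma kernel_last (q : ℕ → ℂ → ℂ) (z : ℂ) (hn : 0 < n) (lam : ℂ) (x : Fin n → ℂ)
    (hx : hitchinMatrix n q z *ᵥ x = lam • x) (hlast : x ⟨n - 1, by omega⟩ = 0) : x = 0 := by
  have key : ∀ m : ℕ, ∀ i : Fin n, n - 1 - (i : ℕ) = m → x i = 0 := by
    intro m
    induction m using Nat.strong_induction_on with
    | _ m ih =>
      intro i hi
      by_cases hm : m = 0
      · have : i = ⟨n - 1, by omega⟩ := by
          apply Fin.ext
          have := i.2
          simp only
          omega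
        rw [this]; exact hlast
      · have hi1 : (i : ℕ) + 1 < n := by omega
        have h1 := congrFun hx ⟨(i : ℕ) + 1, hi1⟩
        simp only [Pi.smul_apply, smul_eq_mul] at h1
        have h2 : x ⟨(i : ℕ) + 1, hi1⟩ = 0 := ih (n - 1 - ((i : ℕ) + 1)) (by omega) _ rfl
        rw [h2, mul_zero, Matrix.mulVec, dotProduct, Finset.sum_eq_single i] at h1
        · simpa [hitchinMatrix] using h1
        · intro j _ hji
          by_cases hj : (j : ℕ) < (i : ℕ) + 1
          · have hj' : (j : ℕ) < (i : ℕ) := by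
              have : (j : ℕ) ≠ (i : ℕ) := fun h => hji (Fin.ext h)
              omega
            have : hitchinMatrix n q z ⟨(i : ℕ) + 1, hi1⟩ j = 0 := by
              simp only [hitchinMatrix, Matrix.of_apply]
              rw [if_neg (by omega), if_neg (by omega)]
            rw [this, zero_mul]
          · have : x j = 0 := ih (n - 1 - (j : ℕ)) (by omega) j rfl
            rw [this, mul_zero]
        · intro h; exact absurd (Finset.mem_univ _) h
  funext i
  exact key _ i rfl

lemma const_hitchin (c : ℕ → ℂ) :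
    hitchinMatrix n (fun k _ => c k) = fun _ => hitchinMatrix n (fun k _ => c k) 0 := by
  funext z; rfl

lemma roots_of_diag {A P Q : Matrix (Fin n) (Fin n) ℂ} {d : Fin n → ℂ} (hPQ : P * Q = 1)
    (hA : A = P * Matrix.diagonal d * Q) :
    A.charpoly.roots = (Finset.univ : Finset (Fin n)).val.map d := by
  have hQP : Q * P = 1 := mul_eq_one_comm.mp hPQ
  have h1 : A.charpoly = (Matrix.diagonal d).charpoly := by
    rw [hA, Matrix.charpoly_mul_comm, ← Matrix.mul_assoc, hQP, Matrix.one_mul]
  have h2 : (Matrix.diagonal d).charpoly = ∏ i : Fin n, (X - C (d i)) := by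
    rw [charpoly_of_isUpperTriangular (Matrix.diagonal d)
      (fun i j h => Matrix.diagonal_apply_ne _ (ne_of_gt h))]
    simp
  have h3 : A.charpoly = (((Finset.univ : Finset (Fin n)).val.map d).map
      fun a => X - C a).prod := by
    rw [h1, h2, Multiset.map_map]; rfl
  rw [h3, roots_multiset_prod_X_sub_C]

theorem nodup_of_harmonic (hn : 0 < n) (c : ℕ → ℂ) (h : HasHarmonicMetric n (fun k _ => c k)) :
    (hitchinMatrix n (fun k _ => c k) 0).charpoly.roots.Nodup := by
  obtain ⟨H, hH⟩ := h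
  rw [const_hitchin] at hH
  set A := hitchinMatrix n (fun k _ => c k) 0 with hA
  obtain ⟨P, Q, d, hPQ, hAd⟩ := diagonalisable_of_harmonic hn A H hH
  have hQP : Q * P = 1 := mul_eq_one_comm.mp hPQ
  rw [roots_of_diag hPQ hAd]
  apply Multiset.Nodup.map _ Finset.univ.nodup
  intro i j hij
  by_contra hne
  have hAP : A * P = P * Matrix.diagonal d := by
    rw [hAd, Matrix.mul_assoc, hQP, Matrix.mul_one]
  have hcol : ∀ k, A *ᵥ (fun a => P a k) = d k • fun a => P a k := by
    intro k
    funext a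
    have := congrFun (congrFun hAP a) k
    rw [Matrix.mul_diagonal, Matrix.mul_apply] at this
    simp only [Matrix.mulVec, dotProduct, Pi.smul_apply, smul_eq_mul]
    rw [this, mul_comm]
  set l : Fin n := ⟨n - 1, by omega⟩ with hl
  set x : Fin n → ℂ := fun a => P l j * P a i - P l i * P a j with hx
  have hx' : x = P l j • (fun a => P a i) - P l i • fun a => P a j := by
    funext a; simp [hx]
  have hx0 : x = 0 := by
    apply kernel_last (fun k _ => c k) 0 hn (d i) x _ (by simp only [hx]; ring)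
    rw [hx', Matrix.mulVec_sub, Matrix.mulVec_smul, Matrix.mulVec_smul]
    change P l j • A *ᵥ (fun a => P a i) - P l i • A *ᵥ (fun a => P a j) = _
    rw [hcol, hcol, hij]
    funext a; simp; ring
  have hQx : ∀ k, Q *ᵥ (fun a => P a k) = Pi.single k 1 := by
    intro k
    funext a
    have := congrFun (congrFun hQP a) k
    rw [Matrix.mul_apply] at this
    simp only [Matrix.mulVec, dotProduct]
    rw [this, Matrix.one_apply, Pi.single_apply]
  have hQx0 : Q *ᵥ x = P l j • Pi.single i 1 - P l i • Pi.single j 1 := by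
    rw [hx', Matrix.mulVec_sub, Matrix.mulVec_smul, Matrix.mulVec_smul, hQx, hQx]
  rw [hx0, Matrix.mulVec_zero] at hQx0
  have h1 : P l j = 0 := by
    have := congrFun hQx0 i
    simp [Pi.single_apply, hne] at this
    exact this.symm
  have h2 : (fun a => P a j) = 0 := by
    exact kernel_last (fun k _ => c k) 0 hn (d j) _ (hcol j) h1
  have h3 := hQx j
  rw [h2, Matrix.mulVec_zero] at h3
  have h4 := congrFun h3 j
  simp at h4

theorem harmonic_of_nodup (c : ℕ → ℂ)
    (h : (hitchinMatrix n (fun k _ => c k) 0).charpoly.roots.Nodup) :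
    HasHarmonicMetric n (fun k _ => c k) := by
  obtain ⟨P, Q, d, hPQ, hA⟩ := diagonalisable_of_nodup _ h
  refine ⟨fun _ => Qᴴ * Q, ?_⟩
  rw [const_hitchin]
  exact harmonic_of_diagonalisable _ P Q d hPQ hA

/-- the explicit tuple: `q_{n-1} = n/2`, `q_n = 1 - n`, the others zero -/
noncomputable def badC (n : ℕ) (k : ℕ) : ℂ :=
  if k + 1 = n then (n : ℂ) / 2 else if k = n then 1 - (n : ℂ) else 0

lemma bad_mulVec (m : ℕ) (ξ : ℕ → ℂ) (i : Fin (m + 3)) :
    (hitchinMatrix (m + 3) (fun k _ => badC (m + 3) k) 0 *ᵥ fun j => ξ j) i =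
      (if (i : ℕ) = 0 then ((m + 3 : ℕ) : ℂ) / 2 * ξ (m + 1) + (1 - ((m + 3 : ℕ) : ℂ)) * ξ (m + 2)
        else if (i : ℕ) = 1 then ξ 0 + ((m + 3 : ℕ) : ℂ) / 2 * ξ (m + 2)
        else ξ ((i : ℕ) - 1)) := by
  have h1 : (hitchinMatrix (m + 3) (fun k _ => badC (m + 3) k) 0 *ᵥ fun j => ξ j) i =
      ∑ j ∈ Finset.range (m + 3), ((if j + 1 = (i : ℕ) then ξ j else 0) +
        (if j = (i : ℕ) + m + 1 then ((m + 3 : ℕ) : ℂ) / 2 * ξ j else 0) +
        (if j = (i : ℕ) + m + 2 then (1 - ((m + 3 : ℕ) : ℂ)) * ξ j else 0)) := by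
    rw [Matrix.mulVec, dotProduct, ← Fin.sum_univ_eq_sum_range (fun j =>
      ((if j + 1 = (i : ℕ) then ξ j else 0) +
        (if j = (i : ℕ) + m + 1 then ((m + 3 : ℕ) : ℂ) / 2 * ξ j else 0) +
        (if j = (i : ℕ) + m + 2 then (1 - ((m + 3 : ℕ) : ℂ)) * ξ j else 0)))]
    refine Finset.sum_congr rfl fun j _ => ?_
    simp only [hitchinMatrix, Matrix.of_apply, badC]
    have hi := i.2
    have hj := j.2
    by_cases c1 : (i : ℕ) = (j : ℕ) + 1
    · rw [if_pos c1, if_pos c1.symm, if_neg (by omega), if_neg (by omega)]; ring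
    · rw [if_neg c1, if_neg (show ¬ ((j : ℕ) + 1 = (i : ℕ)) by omega)]
      by_cases c2 : (i : ℕ) < (j : ℕ)
      · rw [if_pos c2]
        by_cases c3 : (j : ℕ) = (i : ℕ) + m + 1
        · rw [if_pos c3, if_pos (by omega), if_neg (by omega)]; ring
        · rw [if_neg c3, if_neg (by omega)]
          by_cases c4 : (j : ℕ) = (i : ℕ) + m + 2
          · rw [if_pos c4, if_pos (by omega)]; ring
          · rw [if_neg c4, if_neg (by omega)]; ring
      · rw [if_neg c2, if_neg (by omega), if_neg (by omega)]; ring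
  rw [h1, Finset.sum_add_distrib, Finset.sum_add_distrib]
  have hi := i.2
  have s2 : ∑ j ∈ Finset.range (m + 3),
      (if j = (i : ℕ) + m + 1 then ((m + 3 : ℕ) : ℂ) / 2 * ξ j else 0) =
      if (i : ℕ) + m + 1 < m + 3 then ((m + 3 : ℕ) : ℂ) / 2 * ξ ((i : ℕ) + m + 1) else 0 := by
    rw [Finset.sum_ite_eq']
    simp only [Finset.mem_range]
  have s3 : ∑ j ∈ Finset.range (m + 3),
      (if j = (i : ℕ) + m + 2 then (1 - ((m + 3 : ℕ) : ℂ)) * ξ j else 0) =
      if (i : ℕ) + m + 2 < m + 3 then (1 - ((m + 3 : ℕ) : ℂ)) * ξ ((i : ℕ) + m + 2) else 0 := by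
    rw [Finset.sum_ite_eq']
    simp only [Finset.mem_range]
  have s1 : ∑ j ∈ Finset.range (m + 3), (if j + 1 = (i : ℕ) then ξ j else 0) =
      if (i : ℕ) = 0 then 0 else ξ ((i : ℕ) - 1) := by
    by_cases h0 : (i : ℕ) = 0
    · rw [if_pos h0]
      apply Finset.sum_eq_zero
      intro j _
      rw [if_neg (by omega)]
    · rw [if_neg h0, Finset.sum_eq_single ((i : ℕ) - 1)]
      · rw [if_pos (by omega)]
      · intro j _ hj
        rw [if_neg (by omega)]
      · intro h
        exact absurd (Finset.mem_range.mpr (by omega)) h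
  rw [s1, s2, s3]
  by_cases h0 : (i : ℕ) = 0
  · rw [if_pos h0, if_pos h0, if_pos (by omega), if_pos (by omega)]
    have e1 : (i : ℕ) + m + 1 = m + 1 := by omega
    have e2 : (i : ℕ) + m + 2 = m + 2 := by omega
    rw [e1, e2]; ring
  · rw [if_neg h0, if_neg h0]
    by_cases h2 : (i : ℕ) = 1
    · rw [if_pos h2, if_pos (by omega), if_neg (by omega)]
      have e1 : (i : ℕ) + m + 1 = m + 2 := by omega
      have e2 : (i : ℕ) - 1 = 0 := by omega
      rw [e1, e2]; ring
    · rw [if_neg h2, if_neg (by omega), if_neg (by omega)]; ring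

theorem bad_no_harmonic (m : ℕ) : ¬ HasHarmonicMetric (m + 3) (fun k _ => badC (m + 3) k) := by
  rintro ⟨H, hH⟩
  rw [const_hitchin] at hH
  set A := hitchinMatrix (m + 3) (fun k _ => badC (m + 3) k) 0 with hA
  obtain ⟨P, Q, d, hPQ, hAd⟩ := diagonalisable_of_harmonic (by omega) A H hH
  have hQP : Q * P = 1 := mul_eq_one_comm.mp hPQ
  -- the vectors
  set ξ : ℕ → ℂ := fun i => (m : ℂ) + 2 - (i : ℂ) with hξ
  set η : ℕ → ℂ := fun i => if i = 0 then 1 - ((m + 3 : ℕ) : ℂ) / 2 else 1 with hη
  set w : Fin (m + 3) → ℂ := fun j => ξ j with hw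
  set v : Fin (m + 3) → ℂ := fun j => η j with hv
  have h1 : A *ᵥ w = w + v := by
    funext i
    rw [hA, hw, bad_mulVec m ξ i]
    simp only [Pi.add_apply, hv, hξ, hη]
    by_cases h0 : (i : ℕ) = 0
    · rw [if_pos h0, if_pos h0, h0]; push_cast; ring
    · rw [if_neg h0, if_neg h0]
      by_cases h2 : (i : ℕ) = 1
      · rw [if_pos h2, h2]; push_cast; ring
      · rw [if_neg h2]
        have : (((i : ℕ) - 1 : ℕ) : ℂ) = ((i : ℕ) : ℂ) - 1 := by
          rw [Nat.cast_sub (by omega)]; simp
        rw [this]; ring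
  have h2 : A *ᵥ v = v := by
    funext i
    rw [hA, hv, bad_mulVec m η i]
    simp only [hη]
    by_cases h0 : (i : ℕ) = 0
    · rw [if_pos h0, if_pos h0, if_neg (by omega), if_neg (by omega)]; push_cast; ring
    · rw [if_neg h0, if_neg h0]
      by_cases h2 : (i : ℕ) = 1
      · rw [if_pos h2, if_neg (show ¬ (m + 2 = 0) by omega)]; simp
      · rw [if_neg h2, if_neg (by omega)]
  have hv0 : v ≠ 0 := by
    intro h
    have := congrFun h ⟨1, by omega⟩
    simp [hv, hη] at this
  -- in the eigenbasis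
  have hQA : Q * A = Matrix.diagonal d * Q := by
    rw [hAd, ← Matrix.mul_assoc, ← Matrix.mul_assoc, hQP, Matrix.one_mul]
  have e1 : ∀ i, d i * (Q *ᵥ w) i = (Q *ᵥ w) i + (Q *ᵥ v) i := by
    intro i
    have := congrFun (congrArg (fun u => Q *ᵥ u) h1) i
    simp only [Matrix.mulVec_mulVec, hQA, Matrix.mulVec_add, Pi.add_apply] at this
    rw [← Matrix.mulVec_mulVec, Matrix.mulVec_diagonal] at this
    exact this
  have e2 : ∀ i, d i * (Q *ᵥ v) i = (Q *ᵥ v) i := by
    intro i
    have := congrFun (congrArg (fun u => Q *ᵥ u) h2) i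
    simp only [Matrix.mulVec_mulVec, hQA] at this
    rw [← Matrix.mulVec_mulVec, Matrix.mulVec_diagonal] at this
    exact this
  have e3 : Q *ᵥ v = 0 := by
    funext i
    have a1 := e1 i
    have a2 := e2 i
    by_cases hd : d i = 1
    · rw [hd, one_mul] at a1
      have : (Q *ᵥ v) i = 0 := by linear_combination -a1
      simpa using this
    · have : (d i - 1) * (Q *ᵥ v) i = 0 := by linear_combination a2
      rcases mul_eq_zero.mp this with h | h
      · exact absurd (sub_eq_zero.mp h) hd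
      · simpa using h
  apply hv0
  calc v = (P * Q) *ᵥ v := by rw [hPQ, Matrix.one_mulVec]
    _ = P *ᵥ (Q *ᵥ v) := by rw [Matrix.mulVec_mulVec]
    _ = 0 := by rw [e3, Matrix.mulVec_zero]

end Pool.Agent.R728.HM
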